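import Mathlib

/-!
# Auxiliary linear algebra over an algebraically closed field
-/

set_option linter.unusedSectionVars false

namespace Pool.Agent.Y224.CP

open Module

variable {K : Type} [Field K] [CharZero K]

/-- The trace of an idempotent operator is the dimension of its range. -/
theorem trace_idemOp {V : Type*} [AddCommGroup V] [Module K V] [FiniteDimensional K V]
    {T : V →ₗ[K] V} (h : ∀ x, T (T x) = T x) :
    LinearMap.trace K V T = (finrank K (LinearMap.range T) : K) := by
  have h1 : IsIdempotentElem T := LinearMap.ext h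
  exact (LinearMap.IsIdempotentElem.isProj_range _ h1).trace

theorem finrank_eq_one_of {V : Type*} [AddCommGroup V] [Module K V] [FiniteDimensional K V]
    (S : Submodule K V) {e : V} (he : e ∈ S) (he0 : e ≠ 0) (h : ∀ x ∈ S, ∃ c : K, x = c • e) :
    finrank K S = 1 := by
  have h1 : S = Submodule.span K {e} := by
    apply le_antisymm
    · intro x hx
      obtain ⟨c, rfl⟩ := h x hx
      exact Submodule.smul_mem _ _ (Submodule.mem_span_singleton_self e)
    · rw [Submodule.span_singleton_le_iff_mem]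
      exact he
  rw [h1]
  exact finrank_span_singleton he0

theorem finrank_le_of_maps {V V1 V2 : Type*} [AddCommGroup V] [Module K V]
    [FiniteDimensional K V] [AddCommGroup V1] [Module K V1] [FiniteDimensional K V1]
    [AddCommGroup V2] [Module K V2] [FiniteDimensional K V2] (S : Submodule K V)
    (f : V →ₗ[K] V1) (g : V →ₗ[K] V2) (S1 : Submodule K V1) (S2 : Submodule K V2)
    (hf : ∀ x ∈ S, f x ∈ S1) (hg : ∀ x ∈ S, g x ∈ S2)
    (h : ∀ x ∈ S, f x = 0 → g x = 0 → x = 0) : finrank K S ≤ finrank K S1 + finrank K S2 := by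
  let Φ : S →ₗ[K] S1 × S2 :=
    LinearMap.prod ((f.domRestrict S).codRestrict S1 fun x => hf x x.2)
      ((g.domRestrict S).codRestrict S2 fun x => hg x x.2)
  have hinj : Function.Injective Φ := by
    rw [← LinearMap.ker_eq_bot, LinearMap.ker_eq_bot']
    intro x hx
    have h1 : f x = 0 := congrArg (fun z : S1 × S2 => (z.1 : V1)) hx
    have h2 : g x = 0 := congrArg (fun z : S1 × S2 => (z.2 : V2)) hx
    exact Subtype.ext (h x x.2 h1 h2)
  have h1 := LinearMap.finrank_le_finrank_of_injective hinj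
  rwa [Module.finrank_prod] at h1

/-- Dual bases for a pairing between two subspaces. -/
theorem exists_dual {V : Type*} [AddCommGroup V] [Module K V] [FiniteDimensional K V]
    (β : V →ₗ[K] V →ₗ[K] K) (W W' : Submodule K V)
    (n1 : ∀ x ∈ W, (∀ y ∈ W', β x y = 0) → x = 0)
    (n2 : ∀ y ∈ W', (∀ x ∈ W, β x y = 0) → y = 0) :
    ∃ (n : ℕ) (b : Basis (Fin n) K W) (y : Fin n → V), (∀ i, y i ∈ W') ∧
      (∀ i, ∀ x : W, β x (y i) = b.repr x i) ∧ ∀ z ∈ W', z = ∑ i, β (b i) z • y i := by
  let ψ : W' →ₗ[K] Dual K W := ((β.domRestrict W).flip.domRestrict W')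
  have hψ : ∀ (y : W') (x : W), ψ y x = β x y := fun _ _ => rfl
  let χ : W →ₗ[K] Dual K W' := ((β.flip.domRestrict W').flip.domRestrict W)
  have hχ : ∀ (x : W) (y : W'), χ x y = β x y := fun _ _ => rfl
  have i1 : Function.Injective ψ := by
    rw [← LinearMap.ker_eq_bot, LinearMap.ker_eq_bot']
    intro y hy
    refine Subtype.ext (n2 y y.2 fun x hx => ?_)
    rw [← hψ y ⟨x, hx⟩, hy]
    rfl
  have i2 : Function.Injective χ := by
    rw [← LinearMap.ker_eq_bot, LinearMap.ker_eq_bot']
    intro x hx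
    refine Subtype.ext (n1 x x.2 fun y hy => ?_)
    rw [← hχ x ⟨y, hy⟩, hx]
    rfl
  have h1 := LinearMap.finrank_le_finrank_of_injective i1
  have h2 := LinearMap.finrank_le_finrank_of_injective i2
  rw [Subspace.dual_finrank_eq] at h1 h2
  have hsurj : Function.Surjective ψ :=
    (LinearMap.injective_iff_surjective_of_finrank_eq_finrank
      (by rw [Subspace.dual_finrank_eq]; omega)).1 i1
  let b := finBasis K W
  have hy : ∀ i, ∃ y : W', ψ y = b.coord i := fun i => hsurj _
  choose y hy using hy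
  have hy2 : ∀ i, ∀ x : W, β x (y i) = b.repr x i := by
    intro i x
    rw [← hψ, hy]
    rfl
  refine ⟨_, b, fun i => y i, fun i => (y i).2, hy2, fun z hz => ?_⟩
  rw [← sub_eq_zero]
  refine n2 _ (Submodule.sub_mem _ hz (Submodule.sum_mem _ fun i _ =>
    Submodule.smul_mem _ _ (y i).2)) fun x hx => ?_
  rw [map_sub, map_sum, sub_eq_zero]
  have h3 : (x : V) = ∑ i, b.repr ⟨x, hx⟩ i • (b i : V) := by
    have h4 := congrArg Subtype.val (b.sum_repr ⟨x, hx⟩)
    refine h4.symm.trans ?_
    rw [Submodule.coe_sum]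
    rfl
  have h4 : β x z = ∑ i, b.repr ⟨x, hx⟩ i • β (b i) z := by
    nth_rewrite 1 [h3]
    rw [map_sum, LinearMap.sum_apply]
    exact Finset.sum_congr rfl fun i _ => by rw [map_smul, LinearMap.smul_apply]
  rw [h4]
  refine Finset.sum_congr rfl fun i _ => ?_
  rw [map_smul]
  have h5 := hy2 i ⟨x, hx⟩
  change β x (y i) = _ at h5
  rw [h5, smul_eq_mul, smul_eq_mul, mul_comm]


end Pool.Agent.Y224.CP
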