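import Mathlib
import Pool.Agent.Y126.JP.Glob2
import Pool.Agent.Y91.P.Odd2
import Pool.Agent.Y224.CP.A2

/-!
# Rank one elements on strongly irreducible subspaces if the weak Hodge elements generate
-/

set_option linter.unusedSectionVars false
set_option linter.unusedSimpArgs false

namespace Pool.Agent.Y224.CP

open Module Pool.Agent.H204R3.SP Pool.Agent.H204R3.GP Pool.Agent.W522.U Pool.Agent.W529.Ta
open Pool.Agent.W528.Odd Pool.Agent.Y126.OT Pool.Agent.TH118.CR Pool.Agent.Y126.Toric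
open Pool.Agent.Y126.JP
open Pool.Agent.W528.Tor (AltDual)

noncomputable section

variable {K : Type} [Field K] [CharZero K] [IsAlgClosed K] {X : Type} [AddCommGroup X] [Module K X]
  [FiniteDimensional K X] {Γ : Type} [Group Γ] {R : Representation K Γ X} {χ : Γ →* K}
  (ω : X →ₗ[K] X →ₗ[K] K) (hnd : ∀ u, (∀ v, ω u v = 0) → u = 0)
  (hωR : ∀ g u v, ω (R g u) (R g v) = χ g * ω u v) (hss : HasProj R) {U : Submodule K X}
  (hU : SI R U)

include hnd hωR hss hU in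
/-- The Lie algebra is irreducible on `U`, generated by involutions. -/
theorem irr_inv (hP : WeakHodgeGenerate R χ) (W : Submodule K U)
    (hW : ∀ Y ∈ resL R χ U, Y * Y = (1 / 4 : K) • 1 → ∀ u ∈ W, Y u ∈ W) : W = ⊥ ∨ W = ⊤ := by
  obtain ⟨Δ, hΔ, hUΔ⟩ := id hU.2.1
  exact irr_weak ω hnd hωR hss hP hU Δ hΔ hUΔ W (by
    rintro Y ⟨x₀, hx₀, hxx, hYx⟩
    exact hW Y ⟨x₀, hx₀, hYx⟩ (sq_res hYx _ hxx))

include hnd hωR hss hU in
/-- There is an involution, if `U` is not a line. -/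
theorem exists_inv (hP : WeakHodgeGenerate R χ) (hdim : 2 ≤ finrank K U) :
    ∃ D ∈ resL R χ U, D * D = 1 := by
  by_contra hcon
  push Not at hcon
  have h1 : ∀ Y ∈ resL R χ U, Y * Y ≠ (1 / 4 : K) • 1 := by
    intro Y hY hYY
    refine hcon ((2 : K) • Y) ((resL R χ U).smul_mem _ hY) ?_
    rw [smul_mul_assoc, mul_smul_comm, hYY, smul_smul, smul_smul]
    norm_num
  obtain ⟨v, hv⟩ : ∃ v : U, v ≠ 0 := by
    by_contra hcon
    push Not at hcon
    have h1 : finrank K U = 0 := finrank_zero_iff_forall_zero.2 hcon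
    omega
  have h2 := irr_inv ω hnd hωR hss hU hP (Submodule.span K {v}) fun Y hY hYY => absurd hYY (h1 Y hY)
  rcases h2 with h2 | h2
  · exact hv ((Submodule.span_singleton_eq_bot).1 h2)
  · have h4 := finrank_span_singleton (K := K) hv
    rw [h2, finrank_top] at h4
    omega

include hnd hωR hss hU in
/-- **Symplectic subspaces the dimension of which is four or not divisible by four.** -/
theorem one_of_symplectic (halt : AltDual R χ U) (hP : WeakHodgeGenerate R χ)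
    (h4 : ¬4 ∣ finrank K U ∨ finrank K U = 4) :
    ∃ e ∈ lieT R χ, e * e = 0 ∧ finrank K (U.map e) = 1 := by
  refine one_of_res ω hnd hωR hss hU halt hP ?_
  have hdim : 2 ≤ finrank K U := altDual_two_le halt
  obtain ⟨Δ₁, hΔ₁, hUΔ₁⟩ := id hU.2.1
  obtain ⟨Δ₂, hΔ₂, B, hB0, hBalt, hB⟩ := halt
  obtain ⟨Δ, hΔd⟩ : ∃ Δ, Δ = Δ₁ ⊓ Δ₂ := ⟨_, rfl⟩
  have hΔ : Δ.FiniteIndex := by rw [hΔd]; infer_instance
  have hUΔ : ∀ g ∈ Δ, ∀ u ∈ U, R g u ∈ U := fun g hg => hUΔ₁ g (by rw [hΔd] at hg; exact hg.1)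
  have hBΔ : ∀ g ∈ Δ, ∀ u ∈ U, ∀ v ∈ U, B (R g u) (R g v) = χ g * B u v :=
    fun g hg => hB g (by rw [hΔd] at hg; exact hg.2)
  -- the form on `U`
  obtain ⟨om, hom⟩ : ∃ om : U →ₗ[K] U →ₗ[K] K, om = B.compl₁₂ U.subtype U.subtype := ⟨_, rfl⟩
  have hom' : ∀ u v : U, om u v = B u v := fun u v => by rw [hom]; rfl
  have halt' : ∀ v, om v v = 0 := fun v => by rw [hom']; exact hBalt v v.2
  have hndl : ∀ u, (∀ v, om u v = 0) → u = 0 := by
    intro u hu
    apply Subtype.ext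
    exact du_left hU hU.2.1 hΔ hB0 hBΔ u u.2 (fun v hv => by
      have := hu ⟨v, hv⟩
      rwa [hom'] at this)
  have hanti := alt_anti halt'
  have hndr : ∀ u, (∀ v, om v u = 0) → u = 0 := fun u hu => hndl u fun v => by
    rw [hanti, hu, neg_zero]
  have hsp : ∀ Y ∈ resL R χ U, ∀ u w, om (Y u) w + om u (Y w) = 0 := by
    rintro Y ⟨y, hy, hYy⟩ u w
    rw [hom', hom', hYy, hYy]
    exact lieT_skew ω hnd hωR hss hU.2.1 hΔ B hBΔ hy u u.2 w w.2
  have hirr : ∀ W : Submodule K U, (∀ Y ∈ resL R χ U, Y * Y = (1 / 4 : K) • 1 →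
      ∀ u ∈ W, Y u ∈ W) → W = ⊥ ∨ W = ⊤ := fun W hW => irr_inv ω hnd hωR hss hU hP W hW
  obtain ⟨D, hD, hD2⟩ := exists_inv ω hnd hωR hss hU hP hdim
  have hset := setup resL_br hsp hirr hndl hndr
  have hsc : Pool.Agent.Y91.JP.Scal (resL R χ U) := scal hirr
  have hntr : Nontrivial U := Module.nontrivial_of_finrank_pos (R := K) (by omega)
  have hne : D ≠ 0 := by
    rintro rfl
    rw [mul_zero] at hD2
    exact zero_ne_one hD2
  obtain ⟨c, hc, hr⟩ := Pool.Agent.Y91.P.Two.rank_one_odd hset hsc (altF_adj halt' hndr)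
    (adj_trace hndr) h4 (S := {D | D ∈ resL R χ U ∧ D * D = 1}) (fun D hD => hD)
    (fun L hL hbr => hset.gen L (fun D hD hD2 => hL ⟨hD, hD2⟩) hbr) (D := D) ⟨hD, hD2⟩ hne
  exact ⟨c, hc.1, hr⟩

end

end Pool.Agent.Y224.CP
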