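import Mathlib
import Pool.Agent.Y224.CP.S1

/-!
# Rank one elements from coprime multiplicities
-/

set_option linter.unusedSectionVars false
set_option linter.unusedSimpArgs false

namespace Pool.Agent.Y224.CP

open Module Pool.Agent.H204R3.SP Pool.Agent.H204R3.GP Pool.Agent.W522.U Pool.Agent.W529.Ta
open Pool.Agent.W528.Odd Pool.Agent.Y126.OT Pool.Agent.TH118.CR Pool.Agent.Y126.Toric
open Pool.Agent.Y126.JP
open Pool.Agent.W528.Tor (AltDual)

noncomputable section

section mult

variable {K X : Type} [Field K] [AddCommGroup X] [Module K X]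

/-- The dimension of the eigenspace of `x` for `c` on the subspace `U`. -/
def mult (x : Module.End K X) (c : K) (U : Submodule K X) : ℕ :=
  finrank K (LinearMap.ker (x - c • (1 : Module.End K X)) ⊓ U : Submodule K X)

theorem mult_neg (x : Module.End K X) (c : K) (U : Submodule K X) :
    mult (-x) c U = mult x (-c) U := by
  unfold mult
  have h : LinearMap.ker (-x - c • (1 : Module.End K X)) =
      LinearMap.ker (x - (-c) • (1 : Module.End K X)) := by
    have h1 : -x - c • (1 : Module.End K X) = -(x - (-c) • (1 : Module.End K X)) := by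
      rw [neg_smul]
      abel
    rw [h1, LinearMap.ker_neg]
  rw [h]

theorem finrank_range_inv [CharZero K] {x : Module.End K X} {U : Submodule K X}
    (hxx : x * x = (1 / 4 : K) • 1) {Y : Module.End K U} (hY : ∀ u : U, ((Y u : U) : X) = x u) :
    finrank K (LinearMap.range (1 + (2 : K) • Y)) = mult x (1 / 2) U := by
  have h1 : (LinearMap.range (1 + (2 : K) • Y)).map U.subtype =
      LinearMap.ker (x - (1 / 2 : K) • (1 : Module.End K X)) ⊓ U := by
    apply le_antisymm
    · rintro _ ⟨_, ⟨u, rfl⟩, rfl⟩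
      refine ⟨?_, ((1 + (2 : K) • Y) u).2⟩
      change _ ∈ LinearMap.ker _
      rw [LinearMap.mem_ker]
      change (x - (1 / 2 : K) • (1 : Module.End K X)) ((u : X) + (2 : K) • ((Y u : U) : X)) = 0
      have h2 : x (x u) = (1 / 4 : K) • (u : X) := LinearMap.congr_fun hxx (u : X)
      rw [hY, LinearMap.sub_apply, LinearMap.smul_apply, Module.End.one_apply, map_add, map_smul,
        h2]
      module
    · rintro v ⟨hv, hvU⟩
      have hv' : x v = (1 / 2 : K) • v := by
        have h2 : (x - (1 / 2 : K) • (1 : Module.End K X)) v = 0 := hv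
        rw [LinearMap.sub_apply, LinearMap.smul_apply, Module.End.one_apply, sub_eq_zero] at h2
        exact h2
      refine ⟨⟨v, hvU⟩, ⟨(1 / 2 : K) • ⟨v, hvU⟩, ?_⟩, rfl⟩
      apply Subtype.ext
      change (1 / 2 : K) • v + (2 : K) • ((Y ((1 / 2 : K) • (⟨v, hvU⟩ : U)) : U) : X) = v
      rw [hY]
      change (1 / 2 : K) • v + (2 : K) • x ((1 / 2 : K) • v) = v
      rw [map_smul, hv', smul_smul, smul_smul, ← add_smul]
      norm_num
  unfold mult
  rw [← h1]
  exact (Submodule.equivMapOfInjective U.subtype U.injective_subtype _).finrank_eq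

end mult

variable {K : Type} [Field K] [CharZero K] [IsAlgClosed K] {X : Type} [AddCommGroup X] [Module K X]
  [FiniteDimensional K X] {Γ : Type} [Group Γ] {R : Representation K Γ X} {χ : Γ →* K}
  (ω : X →ₗ[K] X →ₗ[K] K) (hnd : ∀ u, (∀ v, ω u v = 0) → u = 0)
  (hωR : ∀ g u v, ω (R g u) (R g v) = χ g * ω u v) (hss : HasProj R) {U : Submodule K X}
  (hU : SI R U)

theorem lift_rank_one {x : Module.End K X} (hx : x ∈ lieT R χ) (hxx : x * x = (1 / 4 : K) • 1)
    {Y N : Module.End K U} (hY : ∀ u : U, ((Y u : U) : X) = x u) (hN : N ∈ resL R χ U)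
    (h1 : (2 : K) • Y * N = N) (h2 : N * ((2 : K) • Y) = -N) (hr : rk N = 1) :
    ∃ e ∈ lieT R χ, e * e = 0 ∧ finrank K (U.map e) = 1 := by
  obtain ⟨y, hy, hNy⟩ := hN
  have hbr : ∀ A ∈ lieT R χ, ∀ B ∈ lieT R χ, A * B - B * A ∈ lieT R χ :=
    fun _ h _ h' => lieT_bracket R χ h h'
  refine ⟨yp x y, yp_mem hxx hbr hx hy, ?_, ?_⟩
  · unfold yp
    calc e1 x * y * e0 x * (e1 x * y * e0 x) = e1 x * y * (e0 x * e1 x) * y * e0 x := by
          noncomm_ring
    _ = 0 := by rw [e0_mul_e1 hxx, mul_zero, zero_mul, zero_mul]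
  · have hN' : N = ((1 / 2 : K) • 1 + Y) * N * ((1 / 2 : K) • 1 - Y) := by
      have e3 : Y * N = (1 / 2 : K) • N := by
        rw [smul_mul_assoc] at h1
        nth_rewrite 2 [← h1]
        rw [smul_smul]
        norm_num
      have e4 : N * Y = -(1 / 2 : K) • N := by
        rw [mul_smul_comm] at h2
        have h3 : N = -((2 : K) • (N * Y)) := by rw [h2, neg_neg]
        nth_rewrite 2 [h3]
        rw [smul_neg, smul_smul]
        norm_num
      have e5 : ((1 / 2 : K) • 1 + Y) * N = N := by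
        rw [add_mul, smul_mul_assoc, one_mul, e3, ← add_smul]
        norm_num
      rw [e5, mul_sub, mul_smul_comm, mul_one, e4]
      module
    have h3 : ∀ u : U, ((N u : U) : X) = yp x y u := by
      intro u
      conv_lhs => rw [hN']
      change (1 / 2 : K) • ((N ((1 / 2 : K) • u - Y u) : U) : X) +
        ((Y (N ((1 / 2 : K) • u - Y u)) : U) : X) = _
      rw [hY, hNy]
      change (1 / 2 : K) • y ((1 / 2 : K) • (u : X) - ((Y u : U) : X)) +
        x (y ((1 / 2 : K) • (u : X) - ((Y u : U) : X))) = _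
      rw [hY]
      rfl
    rw [← rk_res h3, hr]

include hnd hωR hss hU in
/-- **Coprime multiplicities.** -/
theorem one_of_coprime (hP : WeakHodgeGenerate R χ) (hdim : 2 ≤ finrank K U)
    {x : Module.End K X} (hx : x ∈ lieT R χ) (hxx : x * x = (1 / 4 : K) • 1)
    (hcop : Nat.Coprime (mult x (1 / 2) U) (mult x (-(1 / 2)) U)) :
    ∃ e ∈ lieT R χ, e * e = 0 ∧ finrank K (U.map e) = 1 := by
  have hst := lieT_stable ω hnd hωR hss hU.2.1 hx
  obtain ⟨Y, hYd⟩ : ∃ Y : Module.End K U, Y = x.restrict hst := ⟨_, rfl⟩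
  have hY : ∀ u : U, ((Y u : U) : X) = x u := fun u => by rw [hYd]; rfl
  have hYm : Y ∈ resL R χ U := ⟨x, hx, hY⟩
  have hYY : Y * Y = (1 / 4 : K) • 1 := sq_res hY _ hxx
  have hD : (2 : K) • Y ∈ resL R χ U := (resL R χ U).smul_mem _ hYm
  have hD2 : (2 : K) • Y * ((2 : K) • Y) = 1 := by
    rw [smul_mul_smul_comm, hYY, smul_smul]
    norm_num
  have ha : finrank K (LinearMap.range (1 + (2 : K) • Y)) = mult x (1 / 2) U :=
    finrank_range_inv hxx hY
  have hb : finrank K (LinearMap.range (1 - (2 : K) • Y)) = mult x (-(1 / 2)) U := by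
    have h1 : (1 : Module.End K U) - (2 : K) • Y = 1 + (2 : K) • (-Y) := by
      rw [smul_neg]
      abel
    rw [h1, ← mult_neg]
    refine finrank_range_inv (x := -x) (by rw [neg_mul_neg, hxx]) fun u => ?_
    change -((Y u : U) : X) = -(x u)
    rw [hY]
  have h0 : ∀ (D : Module.End K U) (a b : ℕ), D * D = 1 →
      finrank K (LinearMap.range (1 + D)) = a → finrank K (LinearMap.range (1 - D)) = b →
      Nat.Coprime a b → 0 < b := by
    intro D a b _ ha hb hc
    by_contra h1
    have h2 : b = 0 := by omega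
    rw [h2] at hb hc
    have h3 : (1 : Module.End K U) - D = 0 := LinearMap.range_eq_bot.1
      (Submodule.finrank_eq_zero.1 hb)
    have h4 : D = 1 := (sub_eq_zero.1 h3).symm
    have h5 : LinearMap.range (1 + D) = ⊤ := by
      rw [h4, LinearMap.range_eq_top]
      intro u
      refine ⟨(1 / 2 : K) • u, ?_⟩
      rw [LinearMap.add_apply, Module.End.one_apply, ← add_smul]
      norm_num
    rw [h5, finrank_top] at ha
    rw [Nat.coprime_zero_right] at hc
    omega
  have hb0 := h0 _ _ _ hD2 ha hb hcop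
  have ha0 := h0 (-((2 : K) • Y)) _ _ ((neg_mul_neg ((2 : K) • Y) ((2 : K) • Y)).trans hD2)
    (by rw [← sub_eq_add_neg]; exact hb) (by rw [sub_neg_eq_add]; exact ha) hcop.symm
  obtain ⟨N, hN, h1, h2, hr⟩ := Cop.rk_one resL_br
    (fun W hW => irr_inv ω hnd hωR hss hU hP W fun Y hY _ => hW Y hY) hD hD2 ha hb ha0 hb0 hcop
  exact lift_rank_one hx hxx hY hN h1 h2 hr

end

end Pool.Agent.Y224.CP
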