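import Mathlib
import Pool.Agent.Y224.CP.S2

/-!
# Twists
-/

set_option linter.unusedSectionVars false
set_option linter.unusedSimpArgs false

namespace Pool.Agent.Y224.CP

open Module Pool.Agent.H204R3.SP Pool.Agent.H204R3.GP Pool.Agent.W522.U Pool.Agent.W529.Ta
open Pool.Agent.W528.Odd Pool.Agent.Y126.OT Pool.Agent.TH118.CR Pool.Agent.Y126.Toric
open Pool.Agent.Y126.JP
open Pool.Agent.W528.Tor (AltDual)

noncomputable section

section four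

variable {K X : Type} [Field K] [AddCommGroup X] [Module K X]

/-- The product of two bilinear forms. -/
def prodForm (B0 B1 : X →ₗ[K] X →ₗ[K] K) :
    MultilinearMap K (fun _ : Fin 2 × Fin 2 => X) K where
  toFun v := B0 (v (0, 0)) (v (0, 1)) * B1 (v (1, 0)) (v (1, 1))
  map_update_add' := by
    intro _ v k x y
    fin_cases k <;> simp [Function.update] <;> ring
  map_update_smul' := by
    intro _ v k c x
    fin_cases k <;> simp [Function.update] <;> ring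

theorem prodForm_apply (B0 B1 : X →ₗ[K] X →ₗ[K] K) (v : Fin 2 × Fin 2 → X) :
    prodForm B0 B1 v = B0 (v (0, 0)) (v (0, 1)) * B1 (v (1, 0)) (v (1, 1)) := rfl

theorem prodForm_kills (B0 B1 : X →ₗ[K] X →ₗ[K] K) {x : Module.End K X}
    (h : Kills x (prodForm B0 B1)) (a b c d : X) :
    (B0 (x a) b + B0 a (x b)) * B1 c d + B0 a b * (B1 (x c) d + B1 c (x d)) = 0 := by
  have h1 := h (fun k => if k = (0, 0) then a else if k = (0, 1) then b else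
    if k = (1, 0) then c else d)
  rw [Fintype.sum_prod_type, Fin.sum_univ_two, Fin.sum_univ_two, Fin.sum_univ_two] at h1
  simp only [prodForm_apply] at h1
  simp [Function.update] at h1
  linear_combination h1

end four

variable {K : Type} [Field K] [CharZero K] [IsAlgClosed K] {X : Type} [AddCommGroup X] [Module K X]
  [FiniteDimensional K X] {Γ : Type} [Group Γ] {R : Representation K Γ X} {χ : Γ →* K}
  (ω : X →ₗ[K] X →ₗ[K] K) (hnd : ∀ u, (∀ v, ω u v = 0) → u = 0)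
  (hωR : ∀ g u v, ω (R g u) (R g v) = χ g * ω u v) (hss : HasProj R) {U U' : Submodule K X}
  (hU : SI R U) (hU' : SI R U')

include hnd hωR hss hU hU' in
/-- The Lie algebra acts on twisted maps by scalars. -/
theorem twist_scalar {Δ : Subgroup Γ} (hΔ : Δ.FiniteIndex) {T : X →ₗ[K] X} {ψ : Γ → K}
    (hT1 : ∀ u ∈ U, T u ∈ U') (hT2 : ∃ u ∈ U, T u ≠ 0)
    (hT3 : ∀ g ∈ Δ, ∀ u ∈ U, T (R g u) = ψ g • R g (T u)) {p : Module.End K X}
    (hp1 : ∀ v, p v ∈ U) (hp2 : ∀ u ∈ U, p u = u) (hp3 : ∀ g ∈ Δ, ∀ v, p (R g v) = R g (p v)) :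
    ∀ x ∈ lieT R χ, ∃ κ : K, ∀ a, T (p (x a)) = x (T (p a)) + κ • T (p a) := by
  intro x hx
  obtain ⟨Δ₁, hΔ₁, hUΔ₁⟩ := id hU.2.1
  have hTw : Tw R ψ U U' := ⟨Δ, hΔ, T, hT1, hT2, hT3⟩
  obtain ⟨Δ₂, hΔ₂, S, hS1, hS2, hS3⟩ := hTw.symm hU hU'
  obtain ⟨Δ₃, hΔ₃, hUΔ₃⟩ := id hU'.2.1
  obtain ⟨p', hp'1, hp'2, hp'3⟩ := hss Δ₃ hΔ₃ U' hUΔ₃
  have hskew : ∀ u v, ω (x u) v + ω u (x v) = 0 := by
    intro u v
    exact lieT_bil R χ ⟨⊤, inferInstance, fun g _ u v => hωR g u v⟩ hx u v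
  obtain ⟨B0, hB0⟩ : ∃ B0 : X →ₗ[K] X →ₗ[K] K, B0 = ω.comp (T.comp p) := ⟨_, rfl⟩
  obtain ⟨B1, hB1⟩ : ∃ B1 : X →ₗ[K] X →ₗ[K] K, B1 = ω.comp (S.comp p') := ⟨_, rfl⟩
  have hB0' : ∀ a b, B0 a b = ω (T (p a)) b := fun a b => by rw [hB0]; rfl
  have hB1' : ∀ a b, B1 a b = ω (S (p' a)) b := fun a b => by rw [hB1]; rfl
  have hk : Kills x (prodForm B0 B1) := by
    refine hx 2 (prodForm B0 B1) ⟨Δ ⊓ Δ₁ ⊓ Δ₂ ⊓ Δ₃, inferInstance, fun g hg v => ?_⟩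
    have hg0 : g ∈ Δ := hg.1.1.1
    have hg1 : g ∈ Δ₁ := hg.1.1.2
    have hg2 : g ∈ Δ₂ := hg.1.2
    have hg3 : g ∈ Δ₃ := hg.2
    have hne : ψ g ≠ 0 := tw_ne hU hΔ hT2 hT3 hg0 (hUΔ₁ g hg1)
    rw [prodForm_apply, prodForm_apply, hB0', hB0', hB1', hB1', hp3 g hg0, hp'3 g hg3,
      hT3 g hg0 _ (hp1 _), hS3 g hg2 _ (hp'1 _), map_smul, map_smul, LinearMap.smul_apply,
      LinearMap.smul_apply, hωR, hωR, smul_eq_mul, smul_eq_mul]
    field_simp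
  obtain ⟨c₀, hc₀, hSc₀⟩ := hS2
  obtain ⟨d₀, hd₀⟩ : ∃ d₀, ω (S c₀) d₀ ≠ 0 := by
    by_contra hcon
    push Not at hcon
    exact hSc₀ (hnd _ hcon)
  refine ⟨-(ω (S (p' (x c₀)) - x (S (p' c₀))) d₀ / ω (S c₀) d₀), fun a => ?_⟩
  rw [← sub_eq_zero]
  refine hnd _ fun b => ?_
  have h1 := prodForm_kills B0 B1 hk a b c₀ d₀
  rw [hB0', hB0', hB0', hB1', hB1', hB1', hp'2 c₀ hc₀] at h1
  have h2 := hskew (T (p a)) b
  have h3 := hskew (S c₀) d₀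
  rw [hp'2 c₀ hc₀, map_sub, map_add, map_smul, LinearMap.sub_apply, LinearMap.add_apply,
    LinearMap.smul_apply, smul_eq_mul, map_sub, LinearMap.sub_apply]
  field_simp
  linear_combination h1 - ω (S c₀) d₀ * h2 - ω (T (p a)) b * h3

end

end Pool.Agent.Y224.CP
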