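import Mathlib
import Pool.Agent.Y224.CP.S3
import Pool.Agent.Y126.Glue

/-!
# Lines are not self-dual, and numerical separation excludes twists
-/

set_option linter.unusedSectionVars false
set_option linter.unusedSimpArgs false

namespace Pool.Agent.Y224.CP

open Module Pool.Agent.H204R3.SP Pool.Agent.H204R3.GP Pool.Agent.W522.U Pool.Agent.W529.Ta
open Pool.Agent.W528.Odd Pool.Agent.Y126.OT Pool.Agent.TH118.CR Pool.Agent.Y126.Toric
open Pool.Agent.Y126.JP
open Pool.Agent.W528.Tor (AltDual)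

noncomputable section

section half

variable {K X : Type} [Field K] [CharZero K] [AddCommGroup X] [Module K X]

theorem mem_ker_iff {x : Module.End K X} {c : K} {v : X} :
    v ∈ LinearMap.ker (x - c • (1 : Module.End K X)) ↔ x v = c • v := by
  rw [LinearMap.mem_ker, LinearMap.sub_apply, LinearMap.smul_apply, Module.End.one_apply,
    sub_eq_zero]

/-- The two eigenspaces. -/
theorem half_split {x : Module.End K X} (hxx : x * x = (1 / 4 : K) • 1) (v : X) :
    ∃ v1 v2 : X, v = v1 + v2 ∧ x v1 = (1 / 2 : K) • v1 ∧ x v2 = -(1 / 2 : K) • v2 ∧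
      v1 = (1 / 2 : K) • v + x v ∧ v2 = (1 / 2 : K) • v - x v := by
  have h : x (x v) = (1 / 4 : K) • v := LinearMap.congr_fun hxx v
  refine ⟨(1 / 2 : K) • v + x v, (1 / 2 : K) • v - x v, by module, ?_, ?_, rfl, rfl⟩
  · rw [map_add, map_smul, h]
    module
  · rw [map_sub, map_smul, h]
    module

theorem mult_zero_iff [FiniteDimensional K X] {x : Module.End K X} {c : K} {U : Submodule K X} :
    mult x c U = 0 ↔ ∀ u ∈ U, x u = c • u → u = 0 := by
  unfold mult
  rw [Submodule.finrank_eq_zero, Submodule.eq_bot_iff]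
  constructor
  · intro h u hu hx
    exact h u ⟨mem_ker_iff.2 hx, hu⟩
  · rintro h u ⟨h1, h2⟩
    exact h u h2 (mem_ker_iff.1 h1)

theorem mult_full_iff [FiniteDimensional K X] {x : Module.End K X} {c : K} {U : Submodule K X} :
    mult x c U = finrank K U ↔ ∀ u ∈ U, x u = c • u := by
  unfold mult
  constructor
  · intro h u hu
    have h1 := Submodule.eq_of_le_of_finrank_eq (inf_le_right :
      LinearMap.ker (x - c • (1 : Module.End K X)) ⊓ U ≤ U) h
    rw [← h1] at hu
    exact mem_ker_iff.1 hu.1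
  · intro h
    have h1 : LinearMap.ker (x - c • (1 : Module.End K X)) ⊓ U = U :=
      inf_eq_right.2 fun u hu => mem_ker_iff.2 (h u hu)
    rw [h1]

end half

variable {K : Type} [Field K] [CharZero K] [IsAlgClosed K] {X : Type} [AddCommGroup X] [Module K X]
  [FiniteDimensional K X] {Γ : Type} [Group Γ] {R : Representation K Γ X} {χ : Γ →* K}
  (ω : X →ₗ[K] X →ₗ[K] K) (hnd : ∀ u, (∀ v, ω u v = 0) → u = 0)
  (hωR : ∀ g u v, ω (R g u) (R g v) = χ g * ω u v) (hss : HasProj R) {U U' : Submodule K X}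

include hnd hωR hss in
theorem lines {x : Module.End K X} (hx : x ∈ lieT R χ) (hxx : x * x = (1 / 4 : K) • 1)
    (hU : SI R U) (h1 : finrank K U = 1) : ¬Du R χ U U := by
  rintro ⟨Δ, hΔ, B, ⟨u, hu, v, hv, huv⟩, hB⟩
  have hst := lieT_stable ω hnd hωR hss hU.2.1 hx
  have hsk := lieT_skew ω hnd hωR hss hU.2.1 hΔ B hB hx
  obtain ⟨d, hd0, hd⟩ := finrank_eq_one_iff'.1 h1
  obtain ⟨c, hc⟩ := hd ⟨x d, hst d d.2⟩
  have hc' : x d = c • (d : X) := (congrArg Subtype.val hc).symm
  have hd0' : (d : X) ≠ 0 := fun h => hd0 (Subtype.ext h)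
  have hcc : c ≠ 0 := by
    rintro rfl
    have h2 : x (x d) = (1 / 4 : K) • (d : X) := LinearMap.congr_fun hxx (d : X)
    rw [hc', zero_smul, map_zero] at h2
    rcases smul_eq_zero.1 h2.symm with h3 | h3
    · norm_num at h3
    · exact hd0' h3
  have hall : ∀ w ∈ U, x w = c • w := by
    intro w hw
    obtain ⟨t, ht⟩ := hd ⟨w, hw⟩
    have ht' : w = t • (d : X) := (congrArg Subtype.val ht).symm
    rw [ht', map_smul, hc', smul_comm]
  have h2 := hsk u hu v hv
  rw [hall u hu, hall v hv, map_smul, LinearMap.smul_apply, map_smul, ← two_mul,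
    smul_eq_mul] at h2
  rcases mul_eq_zero.1 h2 with h3 | h3
  · exact two_ne_zero h3
  · rcases mul_eq_zero.1 h3 with h4 | h4
    · exact hcc h4
    · exact huv h4

/-- The multiplicities are equal, or the operator is a scalar on both subspaces. -/
def Comparable (x : Module.End K X) (U U' : Submodule K X) : Prop :=
  mult x (1 / 2) U = mult x (1 / 2) U' ∨
    ((mult x (1 / 2) U = 0 ∨ mult x (1 / 2) U = finrank K U) ∧
      (mult x (1 / 2) U' = 0 ∨ mult x (1 / 2) U' = finrank K U'))

include hnd hωR hss in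
/-- **Twists** are excluded by the multiplicities. -/
theorem no_twist {S : Set (Module.End K X)}
    (hS : ∀ x ∈ S, x ∈ lieT R χ ∧ x * x = (1 / 4 : K) • 1)
    (hP : ∀ P : Module.End K X, (∀ x ∈ S, P * x = x * P) →
      ∃ Δ : Subgroup Γ, Δ.FiniteIndex ∧ ∀ g ∈ Δ, P * R g = R g * P)
    (hU : SI R U) (hU' : SI R U') (hdim : 2 ≤ finrank K U)
    (hsep : finrank K U = finrank K U' →
      (∀ x ∈ lieT R χ, x * x = (1 / 4 : K) • 1 → Comparable x U U') →
      ∀ x ∈ S, mult x (1 / 2) U = mult x (1 / 2) U')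
    {ψ : Γ → K} (h : Tw R ψ U U') : Tw R (fun _ => 1) U U' := by
  obtain ⟨Δ, hΔ, T, hT1, hT2, hT3⟩ := h
  obtain ⟨Δ₁, hΔ₁, hUΔ₁⟩ := id hU.2.1
  obtain ⟨p, hp1, hp2, hp3⟩ := hss (Δ ⊓ Δ₁) inferInstance U (fun g hg => hUΔ₁ g hg.2)
  have hsc := twist_scalar ω hnd hωR hss hU hU' (Δ := Δ ⊓ Δ₁) inferInstance hT1 hT2
    (fun g hg => hT3 g hg.1) hp1 hp2 hp3
  obtain ⟨e, he⟩ := tw_equiv hU hU' hΔ hT1 hT2 hT3
  have hfin : finrank K U = finrank K U' := e.finrank_eq
  have hsurj : ∀ v ∈ U', ∃ u ∈ U, T u = v := by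
    intro v hv
    exact ⟨e.symm ⟨v, hv⟩, (e.symm ⟨v, hv⟩).2, by rw [← he, e.apply_symm_apply]⟩
  have hinj := tw_inj hU hΔ hT2 hT3
  -- the action on eigenvectors
  have hact : ∀ x ∈ lieT R χ, ∀ κ : K, (∀ a, T (p (x a)) = x (T (p a)) + κ • T (p a)) →
      ∀ (c : K), ∀ u ∈ U, x u = c • u → x (T u) = (c - κ) • T u := by
    intro x hx κ hκ c u hu hxu
    have h1 := hκ u
    rw [hp2 u hu, hxu, map_smul, map_smul, hp2 u hu] at h1
    rw [sub_smul, h1, add_sub_cancel_right]
  have hquad : ∀ x : Module.End K X, x * x = (1 / 4 : K) • 1 → ∀ (c : K) (v : X), v ≠ 0 →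
      x v = c • v → c * c = 1 / 4 := by
    intro x hxx c v hv hc
    have h1 : x (x v) = (1 / 4 : K) • v := LinearMap.congr_fun hxx v
    rw [hc, map_smul, hc, smul_smul, ← sub_eq_zero, ← sub_smul] at h1
    exact sub_eq_zero.1 ((smul_eq_zero.1 h1).resolve_right hv)
  have hTne : ∀ u ∈ U, u ≠ 0 → T u ≠ 0 := fun u hu hu0 h0 => hu0 (hinj u hu h0)
  -- the two cases
  have hcase : ∀ x ∈ lieT R χ, x * x = (1 / 4 : K) • 1 → ∀ κ : K,
      (∀ a, T (p (x a)) = x (T (p a)) + κ • T (p a)) →
      (κ = 0 → mult x (1 / 2) U = mult x (1 / 2) U') ∧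
      (κ ≠ 0 → (mult x (1 / 2) U = 0 ∧ mult x (1 / 2) U' = finrank K U') ∨
        (mult x (1 / 2) U = finrank K U ∧ mult x (1 / 2) U' = 0)) := by
    intro x hx hxx κ hκ
    have hst := lieT_stable ω hnd hωR hss hU.2.1 hx
    have ha := hact x hx κ hκ
    constructor
    · rintro rfl
      have h1 : (LinearMap.ker (x - (1 / 2 : K) • (1 : Module.End K X)) ⊓ U).map T =
          LinearMap.ker (x - (1 / 2 : K) • (1 : Module.End K X)) ⊓ U' := by
        apply le_antisymm
        · rintro _ ⟨u, ⟨hu1, hu2⟩, rfl⟩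
          refine ⟨mem_ker_iff.2 ?_, hT1 u hu2⟩
          have h2 := ha _ u hu2 (mem_ker_iff.1 hu1)
          rwa [sub_zero] at h2
        · rintro v ⟨hv1, hv2⟩
          obtain ⟨u, hu, rfl⟩ := hsurj v hv2
          refine ⟨u, ⟨mem_ker_iff.2 ?_, hu⟩, rfl⟩
          have h2 := mem_ker_iff.1 hv1
          have h3 := hκ u
          rw [hp2 u hu, zero_smul, add_zero, hp2 _ (hst u hu), h2, ← map_smul] at h3
          have h4 : T (x u - (1 / 2 : K) • u) = 0 := by rw [map_sub, h3, sub_self]
          exact sub_eq_zero.1 (hinj _ (U.sub_mem (hst u hu) (U.smul_mem _ hu)) h4)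
      unfold mult
      rw [← h1]
      have h2 : LinearMap.ker (T.domRestrict
          (LinearMap.ker (x - (1 / 2 : K) • (1 : Module.End K X)) ⊓ U)) = ⊥ := by
        rw [LinearMap.ker_eq_bot']
        intro u hu
        exact Subtype.ext (hinj u u.2.2 hu)
      have h3 := LinearMap.finrank_range_of_inj (LinearMap.ker_eq_bot.1 h2)
      rw [← h3, LinearMap.range_domRestrict]
    · intro hκ0
      have hor : (∀ u ∈ U, x u = (1 / 2 : K) • u → u = 0) ∨
          (∀ u ∈ U, x u = -(1 / 2 : K) • u → u = 0) := by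
        by_contra hcon
        push Not at hcon
        obtain ⟨⟨u, hu, hxu, hu0⟩, v, hv, hxv, hv0⟩ := hcon
        have h1 := hquad x hxx _ _ (hTne u hu hu0) (ha _ u hu hxu)
        have h2 := hquad x hxx _ _ (hTne v hv hv0) (ha _ v hv hxv)
        have h3 : κ * (κ - 1) = 0 := by linear_combination h1
        have h4 : κ * (κ + 1) = 0 := by linear_combination h2
        have h5 := (mul_eq_zero.1 h3).resolve_left hκ0
        have h6 := (mul_eq_zero.1 h4).resolve_left hκ0
        have h7 : (2 : K) = 0 := by linear_combination h6 - h5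
        exact two_ne_zero h7
      rcases hor with hor | hor
      · left
        have hall : ∀ u ∈ U, x u = -(1 / 2 : K) • u := by
          intro u hu
          obtain ⟨v1, v2, hv, hv1, hv2, e1, e2⟩ := half_split hxx u
          have hm : v1 ∈ U := by
            rw [e1]
            exact U.add_mem (U.smul_mem _ hu) (hst u hu)
          rw [hor v1 hm hv1, zero_add] at hv
          rw [hv]
          exact hv2
        refine ⟨mult_zero_iff.2 hor, mult_full_iff.2 fun v hv => ?_⟩
        obtain ⟨u, hu, rfl⟩ := hsurj v hv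
        by_cases hu0 : u = 0
        · rw [hu0, map_zero, map_zero, smul_zero]
        have h1 := ha _ u hu (hall u hu)
        have h2 := hquad x hxx _ _ (hTne u hu hu0) h1
        have h3 : κ * (κ + 1) = 0 := by linear_combination h2
        have h4 := (mul_eq_zero.1 h3).resolve_left hκ0
        rw [h1]
        congr 1
        linear_combination -h4
      · right
        have hall : ∀ u ∈ U, x u = (1 / 2 : K) • u := by
          intro u hu
          obtain ⟨v1, v2, hv, hv1, hv2, e1, e2⟩ := half_split hxx u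
          have hm : v2 ∈ U := by
            rw [e2]
            exact U.sub_mem (U.smul_mem _ hu) (hst u hu)
          rw [hor v2 hm hv2, add_zero] at hv
          rw [hv]
          exact hv1
        refine ⟨mult_full_iff.2 hall, mult_zero_iff.2 fun v hv hxv => ?_⟩
        obtain ⟨u, hu, rfl⟩ := hsurj v hv
        by_contra h0
        have hu0 : u ≠ 0 := by
          rintro rfl
          exact h0 (map_zero _)
        have h1 := ha _ u hu (hall u hu)
        rw [hxv, ← sub_eq_zero, ← sub_smul] at h1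
        have h2 := (smul_eq_zero.1 h1).resolve_right h0
        apply hκ0
        linear_combination h2
  have hmul := hsep hfin (fun x hx hxx => by
    obtain ⟨κ, hκ⟩ := hsc x hx
    obtain ⟨h1, h2⟩ := hcase x hx hxx κ hκ
    by_cases h0 : κ = 0
    · exact Or.inl (h1 h0)
    · rcases h2 h0 with h3 | h3
      · exact Or.inr ⟨Or.inl h3.1, Or.inr h3.2⟩
      · exact Or.inr ⟨Or.inr h3.1, Or.inl h3.2⟩)
  have hzero : ∀ x ∈ S, (T.comp p : Module.End K X) * x = x * T.comp p := by
    intro x hxS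
    obtain ⟨hx, hxx⟩ := hS x hxS
    obtain ⟨κ, hκ⟩ := hsc x hx
    obtain ⟨h1, h2⟩ := hcase x hx hxx κ hκ
    have h3 := hmul x hxS
    by_cases h0 : κ = 0
    · refine LinearMap.ext fun a => ?_
      have h4 := hκ a
      rw [h0, zero_smul, add_zero] at h4
      exact h4
    · exfalso
      rcases h2 h0 with h4 | h4
      · rw [h4.1, h4.2] at h3
        omega
      · rw [h4.1, h4.2] at h3
        omega
  obtain ⟨Δ', hΔ', hc⟩ := hP (T.comp p) hzero
  obtain ⟨u₀, hu₀, hTu₀⟩ := hT2
  refine ⟨Δ', hΔ', T.comp p, fun u hu => ?_, ⟨u₀, hu₀, ?_⟩, fun g hg u hu => ?_⟩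
  · change T (p u) ∈ U'
    rw [hp2 u hu]
    exact hT1 u hu
  · change T (p u₀) ≠ 0
    rw [hp2 u₀ hu₀]
    exact hTu₀
  · rw [one_smul]
    exact LinearMap.congr_fun (hc g hg) u

end

end Pool.Agent.Y224.CP
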