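import Mathlib
import Pool.Agent.Y224.CP.S4

/-!
# Pieces of prime dimension
-/

set_option linter.unusedSectionVars false
set_option linter.unusedSimpArgs false

namespace Pool.Agent.Y224.CP

open Module Pool.Agent.H204R3.SP Pool.Agent.H204R3.GP Pool.Agent.W522.U Pool.Agent.W529.Ta
open Pool.Agent.W528.Odd Pool.Agent.Y126.OT Pool.Agent.TH118.CR Pool.Agent.Y126.Toric
open Pool.Agent.Y126.JP
open Pool.Agent.W528.Tor (AltDual)

noncomputable section

variable {K : Type} [Field K] [CharZero K] [IsAlgClosed K] {X : Type} [AddCommGroup X] [Module K X]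
  [FiniteDimensional K X] {Γ : Type} [Group Γ] {R : Representation K Γ X} {χ : Γ →* K}
  (ω : X →ₗ[K] X →ₗ[K] K) (hnd : ∀ u, (∀ v, ω u v = 0) → u = 0)
  (hωR : ∀ g u v, ω (R g u) (R g v) = χ g * ω u v) (hss : HasProj R) {U : Submodule K X}

omit [IsAlgClosed K] in
/-- The two multiplicities add up to the dimension. -/
theorem mult_add {x : Module.End K X} (hxx : x * x = (1 / 4 : K) • 1)
    (hst : ∀ u ∈ U, x u ∈ U) : mult x (1 / 2) U + mult x (-(1 / 2)) U = finrank K U := by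
  unfold mult
  have h1 : LinearMap.ker (x - (1 / 2 : K) • (1 : Module.End K X)) ⊓ U ⊔
      LinearMap.ker (x - (-(1 / 2) : K) • (1 : Module.End K X)) ⊓ U = U := by
    apply le_antisymm (sup_le inf_le_right inf_le_right)
    intro u hu
    obtain ⟨v1, v2, hv, h1, h2, e1, e2⟩ := half_split hxx u
    rw [hv]
    refine Submodule.add_mem_sup ⟨mem_ker_iff.2 h1, ?_⟩ ⟨mem_ker_iff.2 h2, ?_⟩
    · rw [e1]
      exact U.add_mem (U.smul_mem _ hu) (hst u hu)
    · rw [e2]
      exact U.sub_mem (U.smul_mem _ hu) (hst u hu)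
  have h2 : LinearMap.ker (x - (1 / 2 : K) • (1 : Module.End K X)) ⊓ U ⊓
      (LinearMap.ker (x - (-(1 / 2) : K) • (1 : Module.End K X)) ⊓ U) = ⊥ := by
    rw [eq_bot_iff]
    rintro v ⟨⟨ha, -⟩, ⟨hb, -⟩⟩
    have h3 := mem_ker_iff.1 ha
    rw [mem_ker_iff.1 hb, ← sub_eq_zero, ← sub_smul] at h3
    have h4 := (smul_eq_zero.1 h3).resolve_left (by norm_num)
    rw [h4]
    exact Submodule.zero_mem _
  have h3 := Submodule.finrank_sup_add_finrank_inf_eq
    (LinearMap.ker (x - (1 / 2 : K) • (1 : Module.End K X)) ⊓ U)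
    (LinearMap.ker (x - (-(1 / 2) : K) • (1 : Module.End K X)) ⊓ U)
  rw [h1, h2, finrank_bot, add_zero] at h3
  exact h3.symm

include hnd hωR hss in
/-- If the weak Hodge elements are scalars on `U`, then `U` is a line. -/
theorem line_of_scalar (hP : WeakHodgeGenerate R χ) (hU : SI R U)
    (h : ∀ x ∈ lieT R χ, x * x = (1 / 4 : K) • 1 →
      mult x (1 / 2) U = 0 ∨ mult x (1 / 2) U = finrank K U) : finrank K U = 1 := by
  obtain ⟨Δ₁, hΔ₁, hUΔ₁⟩ := id hU.2.1
  obtain ⟨p, hp1, hp2, hp3⟩ := hss Δ₁ hΔ₁ U hUΔ₁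
  obtain ⟨u₀, hu₀, hne⟩ := (Submodule.ne_bot_iff U).1 hU.1
  obtain ⟨φ, hφ⟩ : ∃ φ : X →ₗ[K] K, φ u₀ = 1 := by
    obtain ⟨φ, hφ⟩ : ∃ φ : Module.Dual K X, φ u₀ ≠ 0 := by
      by_contra hcon
      push Not at hcon
      exact hne ((Module.forall_dual_apply_eq_zero_iff K u₀).1 hcon)
    exact ⟨(φ u₀)⁻¹ • φ, by rw [LinearMap.smul_apply, smul_eq_mul, inv_mul_cancel₀ hφ]⟩
  have hscal : ∀ x ∈ lieT R χ, x * x = (1 / 4 : K) • 1 → ∃ c : K, ∀ u ∈ U, x u = c • u := by
    intro x hx hxx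
    have hst := lieT_stable ω hnd hωR hss hU.2.1 hx
    rcases h x hx hxx with h1 | h1
    · refine ⟨-(1 / 2), fun u hu => ?_⟩
      obtain ⟨v1, v2, hv, hv1, hv2, e1, e2⟩ := half_split hxx u
      have hm : v1 ∈ U := by
        rw [e1]
        exact U.add_mem (U.smul_mem _ hu) (hst u hu)
      rw [mult_zero_iff.1 h1 v1 hm hv1, zero_add] at hv
      rw [hv]
      exact hv2
    · exact ⟨1 / 2, mult_full_iff.1 h1⟩
  have hcom : ∀ x ∈ lieT R χ, x * x = (1 / 4 : K) • 1 →
      ((φ.smulRight u₀).comp p : Module.End K X) * x = x * (φ.smulRight u₀).comp p := by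
    intro x hx hxx
    obtain ⟨c, hc⟩ := hscal x hx hxx
    refine LinearMap.ext fun v => ?_
    change φ (p (x v)) • u₀ = x (φ (p v) • u₀)
    have h1 := Pool.Agent.W839.OT.HTFam.comm R χ ω hnd hωR Δ₁ hΔ₁ p hp3 x hx v
    rw [← h1, hc _ (hp1 v), map_smul, map_smul, hc u₀ hu₀, smul_eq_mul, smul_smul, mul_comm]
  obtain ⟨Δ', hΔ', hc⟩ := hP _ hcom
  have hpot : Pot R (Submodule.span K {u₀}) := by
    refine ⟨Δ', hΔ', fun g hg u hu => ?_⟩
    obtain ⟨t, rfl⟩ := Submodule.mem_span_singleton.1 hu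
    have h1 : φ (p (R g u₀)) • u₀ = R g (φ (p u₀) • u₀) := LinearMap.congr_fun (hc g hg) u₀
    rw [hp2 u₀ hu₀, hφ, one_smul] at h1
    rw [map_smul, ← h1]
    exact Submodule.smul_mem _ _ (Submodule.smul_mem _ _ (Submodule.mem_span_singleton_self _))
  rcases hU.2.2 _ ((Submodule.span_singleton_le_iff_mem u₀ U).2 hu₀) hpot with h1 | h1
  · exact absurd (Submodule.span_singleton_eq_bot.1 h1) hne
  · rw [← h1]
    exact finrank_span_singleton hne

include hnd hωR in
omit [IsAlgClosed K] in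
/-- Unipotent elements of rank one. -/
theorem one_of_unip {γ : Γ} (hγ : (R γ - 1) * (R γ - 1) = 0)
    (h : finrank K (U.map (R γ - 1)) = 1) :
    ∃ N ∈ lieT R χ, N * N = 0 ∧ finrank K (U.map N) = 1 := by
  have h0 : U.map (R γ - 1) ≠ ⊥ := by
    intro h0
    rw [h0, finrank_bot] at h
    exact zero_ne_one h
  obtain ⟨y, hy, hy0⟩ := Pool.Agent.W528.Odd.exists_ne h0
  exact ⟨_, unip_lieT _ _ γ hγ (unip_chi ω hnd hωR γ hγ hy0), hγ, h⟩

include hnd hωR hss in
/-- Unipotent elements of rank two or odd rank on symplectic subspaces. -/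
theorem one_of_unip_alt (hU : SI R U) (halt : AltDual R χ U) (hP : WeakHodgeGenerate R χ) {γ : Γ}
    (hγ : (R γ - 1) * (R γ - 1) = 0)
    (h : finrank K (U.map (R γ - 1)) = 2 ∨ Odd (finrank K (U.map (R γ - 1)))) :
    ∃ N ∈ lieT R χ, N * N = 0 ∧ finrank K (U.map N) = 1 :=
  one_of_alt ω hnd hωR hss hU halt hγ (d := finrank K (U.map (R γ - 1))) (Or.inl rfl)
    (h.imp_right fun h => ⟨h, hP⟩)

include hnd hωR hss in
/-- Pieces of prime dimension. -/
theorem one_of_prime (hP : WeakHodgeGenerate R χ) (hU : SI R U)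
    (hpr : (finrank K U).Prime) : ∃ N ∈ lieT R χ, N * N = 0 ∧ finrank K (U.map N) = 1 := by
  by_contra hcon
  have h1 : finrank K U = 1 := by
    refine line_of_scalar ω hnd hωR hss hP hU fun x hx hxx => ?_
    by_contra h2
    push Not at h2
    apply hcon
    have hadd := mult_add hxx (lieT_stable ω hnd hωR hss hU.2.1 hx)
    refine one_of_coprime ω hnd hωR hss hU hP hpr.two_le hx hxx ?_
    have hlt : mult x (1 / 2) U < finrank K U := by
      have := h2.2
      omega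
    have h3 : Nat.Coprime (mult x (1 / 2) U) (finrank K U) :=
      (Nat.coprime_of_lt_prime h2.1 hlt hpr).symm
    rw [← hadd] at h3
    exact (Nat.coprime_self_add_right).1 h3
  exact hpr.one_lt.ne' h1

end

end Pool.Agent.Y224.CP
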