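import Mathlib
import Pool.Agent.Y224.CP.S5
import Pool.Agent.Y224.OD.Stm2

/-!
# Rank one elements on strongly irreducible subspaces which are not self-dual
-/

set_option linter.unusedSectionVars false
set_option linter.unusedSimpArgs false

namespace Pool.Agent.Y224.CP

open Module Pool.Agent.H204R3.SP Pool.Agent.H204R3.GP Pool.Agent.W522.U Pool.Agent.W529.Ta
open Pool.Agent.W528.Odd Pool.Agent.Y126.OT Pool.Agent.TH118.CR Pool.Agent.Y126.Toric
open Pool.Agent.Y126.JP Pool.Agent.Y224.OD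
open Pool.Agent.W528.Tor (AltDual)

noncomputable section

variable {K : Type} [Field K] [CharZero K] [IsAlgClosed K] {X : Type} [AddCommGroup X] [Module K X]
  [FiniteDimensional K X] {Γ : Type} [Group Γ] {R : Representation K Γ X} {χ : Γ →* K}
  (ω : X →ₗ[K] X →ₗ[K] K) (hnd : ∀ u, (∀ v, ω u v = 0) → u = 0)
  (hωR : ∀ g u v, ω (R g u) (R g v) = χ g * ω u v) (hss : HasProj R) {U : Submodule K X}
  (hU : SI R U)

/-- A set of weak Hodge elements, stable under conjugation, which generates. -/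
structure Gen (R : Representation K Γ X) (χ : Γ →* K) (S : Set (Module.End K X)) : Prop where
  weak : ∀ x ∈ S, x ∈ lieT R χ ∧ x * x = (1 / 4 : K) • 1
  conj : ∀ g : Γ, ∀ x ∈ S, R g * x * R g⁻¹ ∈ S
  gen : ∀ P : Module.End K X, (∀ x ∈ S, P * x = x * P) →
    ∃ Δ : Subgroup Γ, Δ.FiniteIndex ∧ ∀ g ∈ Δ, P * R g = R g * P

theorem Gen.all {S : Set (Module.End K X)} (h : Gen R χ S) : WeakHodgeGenerate R χ :=
  fun P hP => h.gen P fun x hx => hP x (h.weak x hx).1 (h.weak x hx).2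

/-- The restrictions of the weak Hodge elements, as involutions. -/
def invs (S : Set (Module.End K X)) (U : Submodule K X) : Set (Module.End K U) :=
  {D | ∃ x ∈ S, ∀ u : U, ((D u : U) : X) = (2 : K) • x u}

/-- The Lie algebra which they generate. -/
def invL (S : Set (Module.End K X)) (U : Submodule K X) : Submodule K (Module.End K U) :=
  sInf {L | invs S U ⊆ L ∧ ∀ y ∈ L, ∀ z ∈ L, y * z - z * y ∈ L}

variable {S : Set (Module.End K X)}

theorem invL_le {L : Submodule K (Module.End K U)} (h1 : invs S U ⊆ L)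
    (h2 : ∀ y ∈ L, ∀ z ∈ L, y * z - z * y ∈ L) : invL S U ≤ L := sInf_le ⟨h1, h2⟩

theorem mem_invL {D : Module.End K U} (hD : D ∈ invs S U) : D ∈ invL S U := by
  unfold invL
  rw [Submodule.mem_sInf]
  exact fun L hL => hL.1 hD

theorem invL_br {y z : Module.End K U} (hy : y ∈ invL S U) (hz : z ∈ invL S U) :
    y * z - z * y ∈ invL S U := by
  unfold invL at *
  rw [Submodule.mem_sInf] at *
  exact fun L hL => hL.2 y (hy L hL) z (hz L hL)

theorem invL_resL (hG : Gen R χ S) : invL S U ≤ resL R χ U := by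
  refine invL_le ?_ resL_br
  rintro D ⟨x, hx, hD⟩
  exact ⟨(2 : K) • x, (lieT R χ).smul_mem _ (hG.weak x hx).1, fun u => hD u⟩

theorem invs_sq (hG : Gen R χ S) {D : Module.End K U} (hD : D ∈ invs S U) : D * D = 1 := by
  obtain ⟨x, hx, hDx⟩ := hD
  have hxx := (hG.weak x hx).2
  refine LinearMap.ext fun u => Subtype.ext ?_
  change ((D (D u) : U) : X) = (u : X)
  have h1 : x (x u) = (1 / 4 : K) • (u : X) := LinearMap.congr_fun hxx (u : X)
  rw [hDx, hDx, map_smul, h1, smul_smul, smul_smul]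
  norm_num

theorem rkk_invs {D : Module.End K U} {x : Module.End K X} (hxx : x * x = (1 / 4 : K) • 1)
    (hDx : ∀ u : U, ((D u : U) : X) = (2 : K) • x u) :
    rkk (1 + D) = mult x (1 / 2) U ∧ rkk (1 - D) = mult x (-(1 / 2)) U := by
  obtain ⟨Y, hYd⟩ : ∃ Y : Module.End K U, Y = (1 / 2 : K) • D := ⟨_, rfl⟩
  have hY : ∀ u : U, ((Y u : U) : X) = x u := by
    intro u
    rw [hYd]
    change (1 / 2 : K) • ((D u : U) : X) = x u
    rw [hDx, smul_smul]
    norm_num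
  have hD : D = (2 : K) • Y := by
    rw [hYd, smul_smul]
    norm_num
  constructor
  · rw [hD]
    exact finrank_range_inv hxx hY
  · have h1 : (1 : Module.End K U) - D = 1 + (2 : K) • (-Y) := by
      rw [hD, smul_neg]
      abel
    rw [h1, ← mult_neg]
    refine finrank_range_inv (x := -x) (by rw [neg_mul_neg, hxx]) fun u => ?_
    change -((Y u : U) : X) = -(x u)
    rw [hY]

include hnd hωR hss hU in
/-- The generated Lie algebra is irreducible. -/
theorem invL_irr (hG : Gen R χ S) (W : Submodule K U)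
    (hW : ∀ y ∈ invL S U, ∀ w ∈ W, y w ∈ W) : W = ⊥ ∨ W = ⊤ := by
  obtain ⟨Δ, hΔ, hUΔ⟩ := id hU.2.1
  obtain ⟨q, hq1, hq2, hq3⟩ := hss Δ hΔ U hUΔ
  have hqc : ∀ x₀ ∈ lieT R χ, ∀ v, x₀ (q v) = q (x₀ v) := fun x₀ hx₀ v =>
    Pool.Agent.W839.OT.HTFam.comm R χ ω hnd hωR Δ hΔ q hq3 x₀ hx₀ v
  have hS : ∀ g : Δ, ∀ x ∈ invs S U, resR R Δ U hUΔ g * x * resR R Δ U hUΔ g⁻¹ ∈ invs S U := by
    rintro g Y ⟨x₀, hx₀, hYx⟩
    refine ⟨R g.1 * x₀ * R g.1⁻¹, hG.conj g.1 x₀ hx₀, fun u => ?_⟩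
    change R g.1 ((Y (resR R Δ U hUΔ g⁻¹ u) : U) : X) = (2 : K) • R g.1 (x₀ (R g.1⁻¹ u))
    rw [hYx, map_smul]
    rfl
  have hirrU : ∀ W : Submodule K U, (∀ g : Δ, ∀ u ∈ W, resR R Δ U hUΔ g u ∈ W) →
      W = ⊥ ∨ W = ⊤ := fun W h => sIrr_res hU Δ hΔ hUΔ ⊤ inferInstance W (fun g _ => h g)
  obtain ⟨P, hP1, hP2, hP3⟩ := clifford hirrU hS (W := W)
    (fun Y hY => hW Y (mem_invL hY))
  obtain ⟨Q, hQ⟩ : ∃ Q : Module.End K X, Q = U.subtype.comp (P.comp (q.codRestrict U hq1)) :=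
    ⟨_, rfl⟩
  obtain ⟨Δ', hΔ', hc⟩ := hG.gen Q (by
    intro x₀ hx₀S
    obtain ⟨hx₀, hxx⟩ := hG.weak x₀ hx₀S
    have hst : ∀ u ∈ U, x₀ u ∈ U := by
      intro u hu
      have h1 := hqc x₀ hx₀ u
      rw [hq2 u hu] at h1
      rw [h1]
      exact hq1 _
    have h1 := hP3 ((2 : K) • x₀.restrict hst) ⟨x₀, hx₀S, fun u => rfl⟩
    rw [mul_smul_comm, smul_mul_assoc] at h1
    have h1' := smul_right_injective _ (two_ne_zero (α := K)) h1
    rw [hQ]
    refine LinearMap.ext fun v => ?_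
    change ((P (q.codRestrict U hq1 (x₀ v)) : U) : X) = x₀ ((P (q.codRestrict U hq1 v) : U) : X)
    have h2 : q.codRestrict U hq1 (x₀ v) = x₀.restrict hst (q.codRestrict U hq1 v) :=
      Subtype.ext (hqc x₀ hx₀ v).symm
    rw [h2]
    have h3 := congrArg (fun f : Module.End K U => f (q.codRestrict U hq1 v)) h1'
    exact congrArg Subtype.val h3)
  have hQW : ∀ v, Q v ∈ W.map U.subtype := fun v => by rw [hQ]; exact ⟨_, hP1 _, rfl⟩
  have hQW' : ∀ w ∈ W.map U.subtype, Q w = w := by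
    rintro _ ⟨w, hw, rfl⟩
    rw [hQ]
    change ((P (q.codRestrict U hq1 (w : X)) : U) : X) = w
    have h2 : q.codRestrict U hq1 (w : X) = w := Subtype.ext (hq2 w w.2)
    rw [h2, hP2 w hw]
  have hpot : Pot R (W.map U.subtype) := by
    refine ⟨Δ', hΔ', fun g hg u hu => ?_⟩
    have h1 := congrArg (fun f : Module.End K X => f u) (hc g hg)
    have h2 : Q (R g u) = R g (Q u) := h1
    rw [← hQW' u hu, ← h2]
    exact hQW _
  rcases hU.2.2 _ (Submodule.map_subtype_le _ _) hpot with h2 | h2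
  · left
    rw [eq_bot_iff]
    intro u hu
    have h3 : (u : X) ∈ W.map U.subtype := ⟨u, hu, rfl⟩
    rw [h2, Submodule.mem_bot] at h3
    rw [Submodule.mem_bot]
    exact Subtype.ext h3
  · right
    rw [eq_top_iff]
    intro u _
    have h3 : (u : X) ∈ W.map U.subtype := by
      rw [h2]
      exact u.2
    obtain ⟨u', hu', huu⟩ := h3
    have h4 : u' = u := Subtype.ext huu
    rw [← h4]
    exact hu'

include hnd hωR hss hU in
/-- There are no invariant bilinear forms on a subspace which is not self-dual. -/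
theorem no_form (hG : Gen R χ S) (hns : ¬Du R χ U U) {B : U →ₗ[K] U →ₗ[K] K}
    (hB : ∀ y ∈ invL S U, ∀ u v, B (y u) v + B u (y v) = 0) : B = 0 := by
  by_contra hB0
  apply hns
  obtain ⟨Δ₁, hΔ₁, hUΔ₁⟩ := id hU.2.1
  obtain ⟨p, hp1, hp2, hp3⟩ := hss Δ₁ hΔ₁ U hUΔ₁
  obtain ⟨q, hq⟩ : ∃ q : X →ₗ[K] U, ∀ v, ((q v : U) : X) = p v :=
    ⟨p.codRestrict U hp1, fun v => rfl⟩
  have hqu : ∀ u : U, q u = u := fun u => Subtype.ext (by rw [hq, hp2 u u.2])
  obtain ⟨B', hB'⟩ : ∃ B' : X →ₗ[K] X →ₗ[K] K, ∀ a b, B' a b = B (q a) (q b) :=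
    ⟨B.compl₁₂ q q, fun a b => rfl⟩
  -- the operator
  obtain ⟨e, he⟩ : ∃ e : X ≃ₗ[K] Dual K X, ∀ a b, e a b = ω a b := by
    refine ⟨LinearEquiv.ofInjectiveOfFinrankEq ω ?_ (Subspace.dual_finrank_eq).symm,
      fun a b => rfl⟩
    rw [← LinearMap.ker_eq_bot, LinearMap.ker_eq_bot']
    intro w hw
    exact hnd w fun v => by rw [hw]; rfl
  obtain ⟨T, hT⟩ : ∃ T : Module.End K X, ∀ a b, ω (T a) b = B' a b := by
    refine ⟨e.symm.toLinearMap.comp B', fun a b => ?_⟩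
    change ω (e.symm (B' a)) b = B' a b
    rw [← he, LinearEquiv.apply_symm_apply]
  have hcom : ∀ x ∈ S, T * x = x * T := by
    intro x hxS
    obtain ⟨hx, hxx⟩ := hG.weak x hxS
    have hst := lieT_stable ω hnd hωR hss hU.2.1 hx
    have hcp : ∀ v, x (p v) = p (x v) := fun v =>
      Pool.Agent.W839.OT.HTFam.comm R χ ω hnd hωR Δ₁ hΔ₁ p hp3 x hx v
    have hskew : ∀ u v, ω (x u) v + ω u (x v) = 0 := by
      intro u v
      exact lieT_bil R χ ⟨⊤, inferInstance, fun g _ u v => hωR g u v⟩ hx u v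
    obtain ⟨D, hD⟩ : ∃ D : Module.End K U, ∀ u : U, ((D u : U) : X) = (2 : K) • x u :=
      ⟨(2 : K) • x.restrict hst, fun u => rfl⟩
    have hDi : D ∈ invs S U := ⟨x, hxS, hD⟩
    have hqD : ∀ v, D (q v) = (2 : K) • q (x v) := by
      intro v
      apply Subtype.ext
      rw [hD, hq, hcp]
      change _ = (2 : K) • ((q (x v) : U) : X)
      rw [hq]
    refine LinearMap.ext fun a => ?_
    rw [← sub_eq_zero]
    refine hnd _ fun b => ?_
    have h1 := hB D (mem_invL hDi) (q a) (q b)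
    rw [hqD, hqD, map_smul, map_smul, LinearMap.smul_apply, ← smul_add] at h1
    have h2 := (smul_eq_zero.1 h1).resolve_left (two_ne_zero (α := K))
    rw [← hB', ← hB', ← hT, ← hT] at h2
    have h3 := hskew (T a) b
    rw [map_sub, LinearMap.sub_apply]
    change ω (T (x a)) b - ω (x (T a)) b = 0
    linear_combination h2 - h3
  obtain ⟨Δ', hΔ', hc⟩ := hG.gen T hcom
  obtain ⟨u, v, huv⟩ : ∃ u v, B u v ≠ 0 := by
    by_contra hcon
    push Not at hcon
    exact hB0 (LinearMap.ext fun u => LinearMap.ext fun v => hcon u v)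
  refine ⟨Δ', hΔ', B', ⟨u, u.2, v, v.2, by rw [hB', hqu, hqu]; exact huv⟩, ?_⟩
  intro g hg a _ b _
  rw [← hT, ← hT]
  have h1 : T (R g a) = R g (T a) := LinearMap.congr_fun (hc g hg) a
  rw [h1, hωR]

include hnd hωR hss hU in
/-- **Subspaces which are not self-dual.** -/
theorem one_of_duo (hDUO : S_DUO) (hG : Gen R χ S) (hns : ¬Du R χ U U)
    {x : Module.End K X} (hxS : x ∈ S)
    (hp0 : 0 < mult x (1 / 2) U) (hq0 : 0 < mult x (-(1 / 2)) U)
    (hgcd : ∀ y ∈ S, 0 < mult y (1 / 2) U → 0 < mult y (-(1 / 2)) U →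
      ¬finrank K U ∣ Nat.gcd (mult x (1 / 2) U) (mult x (-(1 / 2)) U) *
        Nat.gcd (mult y (1 / 2) U) (mult y (-(1 / 2)) U))
    (hcase : (mult x (1 / 2) U ≠ mult x (-(1 / 2)) U ∧ ∀ n a : ℕ, 1 < a → a < n →
        ¬(mult x (1 / 2) U = n.choose a ∧ mult x (-(1 / 2)) U = n.choose (a - 1))) ∨
      ∀ y ∈ S, mult y (1 / 2) U = mult y (-(1 / 2)) U) :
    ∃ e ∈ lieT R χ, e * e = 0 ∧ finrank K (U.map e) = 1 := by
  obtain ⟨hx, hxx⟩ := hG.weak x hxS
  have hst := lieT_stable ω hnd hωR hss hU.2.1 hx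
  obtain ⟨Y, hYd⟩ : ∃ Y : Module.End K U, Y = x.restrict hst := ⟨_, rfl⟩
  have hY : ∀ u : U, ((Y u : U) : X) = x u := fun u => by rw [hYd]; rfl
  have hD : ∀ u : U, ((((2 : K) • Y) u : U) : X) = (2 : K) • x u := fun u => by
    change (2 : K) • ((Y u : U) : X) = _
    rw [hY]
  have hDi : (2 : K) • Y ∈ invs S U := ⟨x, hxS, hD⟩
  obtain ⟨hrp, hrq⟩ := rkk_invs hxx hD
  have hadd := mult_add hxx hst
  obtain ⟨N, hN, h1, h2, hr⟩ := hDUO K U (invL S U) (invs S U) ((2 : K) • Y)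
    (mult x (1 / 2) U) (mult x (-(1 / 2)) U) (fun _ h _ h' => invL_br h h')
    (fun D hD => ⟨mem_invL hD, invs_sq hG hD⟩) (fun L' h1 h2 => invL_le h1 h2)
    (fun W hW => invL_irr ω hnd hωR hss hU hG W hW)
    (fun B hB => no_form ω hnd hωR hss hU hG hns hB) hDi hrp hrq hp0 hq0
    (by
      rintro D ⟨y, hy, hDy⟩ h1 h2
      obtain ⟨e1, e2⟩ := rkk_invs (hG.weak y hy).2 hDy
      rw [e1] at h1
      rw [e2] at h2
      rw [e1, e2, hadd]
      exact hgcd y hy h1 h2)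
    (by
      rcases hcase with h | h
      · exact Or.inl h
      · have e0 := h x hxS
        refine Or.inr ⟨e0, fun m hm hpm => ?_, ?_⟩
        · apply hgcd x hxS hp0 hq0
          rw [← hadd, ← e0, Nat.gcd_self, hpm, ← pow_add, ← two_mul, ← pow_succ']
          exact pow_dvd_pow 2 (by omega)
        · rintro D ⟨y, hy, hDy⟩
          obtain ⟨e1, e2⟩ := rkk_invs (hG.weak y hy).2 hDy
          rw [e1, e2]
          exact h y hy)
  exact lift_rank_one hx hxx hY (invL_resL hG hN) h1 h2 hr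

end

end Pool.Agent.Y224.CP
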